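import Pool.Agent.Y554.NE.Stm

/-!
NE-DEC: decomposition into `m`-connected components, independence of local events.
-/

set_option autoImplicit false

namespace Pool.Agent.Y239.NE.Dec

open H974 H12S Finset Pool.Agent.Y554.SN Pool.Agent.Y554.NE

theorem okh : Ok (fun _ : Edg => (1 / 2 : ℝ)) := fun _ => by norm_num

theorem ds_comm (a b : Edg) : ds a b = ds b a := by
  unfold ds
  omega

theorem ds_tri (a b c : Edg) : ds a c ≤ ds a b + ds b c := by
  unfold ds
  omega

theorem mem_blk {c : ℤ × ℤ} {ρ : ℕ} {e : Edg} (h : e ∈ blk c ρ) :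
    (e.1 - c.1).natAbs ≤ ρ ∧ (e.2.1 - c.2).natAbs ≤ ρ := by
  unfold blk at h
  rcases e with ⟨x, y, _ | _⟩
  · simp only [mem_RE_false] at h
    dsimp only
    omega
  · simp only [mem_RE_true] at h
    dsimp only
    omega

theorem mem_blk_pos {v e : Edg} {ρ : ℕ} (h : e ∈ blk (pos v) ρ) : ds e v ≤ ρ := by
  have := mem_blk h
  simp only [pos] at this
  unfold ds
  omega

/-- independence of a finite family of local events with disjoint regions -/
theorem prod_indep {ι : Type*} [DecidableEq ι] (U : Finset Edg) (reg : ι → Finset Edg)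
    (Ev : ι → Finset Edg → Prop) (P : Finset ι)
    (hreg : ∀ i ∈ P, ∀ F F' : Finset Edg, F ∩ reg i = F' ∩ reg i → (Ev i F ↔ Ev i F'))
    (hd : ∀ i ∈ P, ∀ j ∈ P, i ≠ j → Disjoint (reg i) (reg j)) :
    PQ (1 / 2) U (fun F => ∀ i ∈ P, Ev i F) = ∏ i ∈ P, PQ (1 / 2) U (Ev i) := by
  classical
  induction P using Finset.induction_on with
  | empty =>
    rw [Finset.prod_empty]
    exact Pr_true U (fun F _ i hi => absurd hi (Finset.notMem_empty i))
  | insert a P ha ih =>
    rw [Finset.prod_insert ha, ← ih (fun i hi => hreg i (mem_insert_of_mem hi))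
      (fun i hi j hj => hd i (mem_insert_of_mem hi) j (mem_insert_of_mem hj))]
    have h1 : PQ (1 / 2) U (fun F => ∀ i ∈ insert a P, Ev i F) =
        PQ (1 / 2) U (fun F => Ev a F ∧ ∀ i ∈ P, Ev i F) := by
      apply Pr_congr
      intro F _
      constructor
      · intro h
        exact ⟨h a (mem_insert_self a P), fun i hi => h i (mem_insert_of_mem hi)⟩
      · rintro ⟨h1, h2⟩ i hi
        rcases mem_insert.mp hi with rfl | hi
        · exact h1
        · exact h2 i hi
    rw [h1]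
    refine Pr_indep (S := reg a ∩ U) (T := (P.biUnion reg) ∩ U) inter_subset_right
      inter_subset_right ?_ ?_ ?_
    · rw [Finset.disjoint_left]
      intro e he1 he2
      obtain ⟨i, hi, hei⟩ := mem_biUnion.mp (mem_inter.mp he2).1
      have hne : a ≠ i := fun h => ha (h ▸ hi)
      exact Finset.disjoint_left.mp (hd a (mem_insert_self a P) i (mem_insert_of_mem hi) hne)
        (mem_inter.mp he1).1 hei
    · intro F hF
      apply hreg a (mem_insert_self a P)
      ext e
      simp only [mem_inter]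
      constructor
      · rintro ⟨h1, h2⟩
        exact ⟨⟨h1, h2, hF h1⟩, h2⟩
      · rintro ⟨⟨h1, -, -⟩, h2⟩
        exact ⟨h1, h2⟩
    · intro F hF
      have key : ∀ i ∈ P, (Ev i F ↔ Ev i (F ∩ (P.biUnion reg ∩ U))) := by
        intro i hi
        apply hreg i (mem_insert_of_mem hi)
        ext e
        simp only [mem_inter]
        constructor
        · rintro ⟨h1, h2⟩
          exact ⟨⟨h1, mem_biUnion.mpr ⟨i, hi, h2⟩, hF h1⟩, h2⟩
        · rintro ⟨⟨h1, -, -⟩, h2⟩
          exact ⟨h1, h2⟩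
      exact forall₂_congr key

/-- steps inside `S` -/
def stp (m : ℕ) (S : Finset Edg) (a b : Edg) : Prop := a ∈ S ∧ b ∈ S ∧ ds a b ≤ m

open Classical in
/-- the component of `a` -/
noncomputable def cmp (m : ℕ) (S : Finset Edg) (a : Edg) : Finset Edg :=
  S.filter (fun b => Relation.ReflTransGen (stp m S) a b)

theorem stp_symm {m : ℕ} {S : Finset Edg} {a b : Edg} (h : stp m S a b) : stp m S b a :=
  ⟨h.2.1, h.1, by rw [ds_comm]; exact h.2.2⟩

theorem rtg_symm {m : ℕ} {S : Finset Edg} {a b : Edg}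
    (h : Relation.ReflTransGen (stp m S) a b) : Relation.ReflTransGen (stp m S) b a := by
  induction h with
  | refl => exact Relation.ReflTransGen.refl
  | tail _ h2 ih => exact Relation.ReflTransGen.head (stp_symm h2) ih

theorem mem_cmp {m : ℕ} {S : Finset Edg} {a b : Edg} :
    b ∈ cmp m S a ↔ b ∈ S ∧ Relation.ReflTransGen (stp m S) a b := by
  classical
  unfold cmp
  rw [mem_filter]

theorem cmp_eq {m : ℕ} {S : Finset Edg} {a b : Edg}
    (h : Relation.ReflTransGen (stp m S) a b) : cmp m S a = cmp m S b := by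
  ext e
  rw [mem_cmp, mem_cmp]
  constructor
  · rintro ⟨h1, h2⟩
    exact ⟨h1, (rtg_symm h).trans h2⟩
  · rintro ⟨h1, h2⟩
    exact ⟨h1, h.trans h2⟩

theorem exit_step {m : ℕ} {S A : Finset Edg} {x y : Edg}
    (h : Relation.ReflTransGen (stp m S) x y) (hx : x ∈ A) (hy : y ∉ A) :
    ∃ u ∈ A, ∃ v, v ∉ A ∧ stp m S u v ∧ Relation.ReflTransGen (stp m S) x v := by
  induction h with
  | refl => exact absurd hx hy
  | @tail b c h1 h2 ih =>
    by_cases hb : b ∈ A
    · exact ⟨b, hb, c, hy, h2, h1.tail h2⟩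
    · exact ih hb

theorem cmp_conn (m : ℕ) (S : Finset Edg) (a : Edg) : conn m (cmp m S a) := by
  intro A hA hne hne'
  obtain ⟨x, hx⟩ := hne
  obtain ⟨y, hy⟩ := hne'
  obtain ⟨hy1, hy2⟩ := mem_sdiff.mp hy
  have k1 := mem_cmp.mp (hA hx)
  have k2 := mem_cmp.mp hy1
  obtain ⟨u, hu, v, hv, h1, h2⟩ := exit_step ((rtg_symm k1.2).trans k2.2) hx hy2
  exact ⟨u, hu, v, mem_sdiff.mpr ⟨mem_cmp.mpr ⟨h1.2.1, k1.2.trans h2⟩, hv⟩, h1.2.2⟩

theorem dec : S_DEC := by
  classical
  intro n m B hB S hS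
  set P : Finset (Finset Edg) := S.image (cmp m S) with hP
  have hmem : ∀ R ∈ P, ∃ a ∈ S, R = cmp m S a := by
    intro R hR
    obtain ⟨a, ha, h⟩ := mem_image.mp hR
    exact ⟨a, ha, h.symm⟩
  have hsub : ∀ R ∈ P, R ⊆ S := by
    intro R hR
    obtain ⟨a, -, rfl⟩ := hmem R hR
    intro e he
    exact (mem_cmp.mp he).1
  have hne : ∀ R ∈ P, R.Nonempty := by
    intro R hR
    obtain ⟨a, ha, rfl⟩ := hmem R hR
    exact ⟨a, mem_cmp.mpr ⟨ha, Relation.ReflTransGen.refl⟩⟩
  have hcon : ∀ R ∈ P, conn m R := by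
    intro R hR
    obtain ⟨a, -, rfl⟩ := hmem R hR
    exact cmp_conn m S a
  have hfar : ∀ R ∈ P, ∀ R' ∈ P, R ≠ R' → ∀ v ∈ R, ∀ w ∈ R', m < ds v w := by
    intro R hR R' hR' hRR v hv w hw
    by_contra hcon'
    obtain ⟨a, -, rfl⟩ := hmem R hR
    obtain ⟨b, -, rfl⟩ := hmem R' hR'
    apply hRR
    have h1 := mem_cmp.mp hv
    have h2 := mem_cmp.mp hw
    have h3 : stp m S v w := ⟨h1.1, h2.1, not_lt.mp hcon'⟩
    rw [cmp_eq h1.2, cmp_eq (Relation.ReflTransGen.single h3), cmp_eq h2.2]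
  have hdis : ∀ R ∈ P, ∀ R' ∈ P, R ≠ R' → Disjoint R R' := by
    intro R hR R' hR' hRR
    rw [Finset.disjoint_left]
    intro e he he'
    have := hfar R hR R' hR' hRR e he e he'
    unfold ds at this
    simp at this
  have huni : P.biUnion id = S := by
    ext e
    rw [mem_biUnion]
    constructor
    · rintro ⟨R, hR, he⟩
      exact hsub R hR he
    · intro he
      exact ⟨cmp m S e, mem_image_of_mem _ he, mem_cmp.mpr ⟨he, Relation.ReflTransGen.refl⟩⟩
  have hL : ∀ R ∈ P, Loc n m R (B R) := fun R hR =>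
    hB R ((hsub R hR).trans hS) (hne R hR) (hcon R hR)
  unfold Loc at hL
  choose! Ev h1 h2 h3 using hL
  refine ⟨P, fun R hR => ⟨hsub R hR, hne R hR, hcon R hR⟩, hdis, huni, ?_⟩
  calc PQ (1 / 2) (boxE n) (Qe n S)
      ≤ PQ (1 / 2) (boxE n) (fun F => ∀ R ∈ P, Ev R F) := by
        apply Pr_mono okh
        intro F hF hQ R hR
        refine h2 R hR S (hsub R hR) hS ?_ F hF hQ
        intro v hv w hw
        obtain ⟨hw1, hw2⟩ := mem_sdiff.mp hw
        rw [← huni, mem_biUnion] at hw1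
        obtain ⟨R', hR', hwR'⟩ := hw1
        refine hfar R hR R' hR' ?_ v hv w hwR'
        rintro rfl
        exact hw2 hwR'
    _ = ∏ R ∈ P, PQ (1 / 2) (boxE n) (Ev R) := by
        apply prod_indep (boxE n) (fun R => nb R (m / 2) \ R) Ev P h1
        intro R hR R' hR' hRR
        rw [Finset.disjoint_left]
        intro e he he'
        obtain ⟨v, hv, hve⟩ := mem_biUnion.mp (mem_sdiff.mp he).1
        obtain ⟨w, hw, hwe⟩ := mem_biUnion.mp (mem_sdiff.mp he').1
        have k1 := mem_blk_pos hve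
        have k2 := mem_blk_pos hwe
        have k3 := hfar R hR R' hR' hRR v hv w hw
        have k4 := ds_tri v e w
        rw [ds_comm v e] at k4
        omega
    _ ≤ ∏ R ∈ P, B R :=
        Finset.prod_le_prod (fun R _ => Pr_nonneg okh _ _) (fun R hR => h3 R hR)

end Pool.Agent.Y239.NE.Dec
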