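import Pool.Agent.Y239.NE.Dec

/-!
NE-OUT: the annulus around a set.
-/

set_option autoImplicit false

namespace Pool.Agent.Y239.NE.Out

open H974 H12S Finset Pool.Agent.Y554.SN Pool.Agent.Y554.NE Pool.Agent.Y239.NE.Dec

theorem blk_sub {c c' : ℤ × ℤ} {r r' : ℕ} (h1 : (c.1 - c'.1).natAbs + r ≤ r')
    (h2 : (c.2 - c'.2).natAbs + r ≤ r') : blk c r ⊆ blk c' r' := by
  unfold blk
  apply RE_subset <;> omega

theorem mem_blk_of {x e : Edg} {r : ℕ} (h : ds e x < r) : e ∈ blk (pos x) r := by
  unfold ds at h
  unfold blk pos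
  rcases e with ⟨a, b, _ | _⟩
  · dsimp only at h
    simp only [mem_RE_false]
    omega
  · dsimp only at h
    simp only [mem_RE_true]
    omega

theorem ds_le_dm {S : Finset Edg} {a b : Edg} (ha : a ∈ S) (hb : b ∈ S) : ds a b ≤ dm S := by
  unfold dm
  exact (Finset.le_sup (f := fun b => ds a b) hb).trans
    (Finset.le_sup (f := fun a => S.sup (fun b => ds a b)) ha)

theorem pos_le {n : ℕ} {x : Edg} (hx : x ∈ boxE n) : |(pos x).1| ≤ n ∧ |(pos x).2| ≤ n := by
  unfold boxE at hx
  unfold pos
  rcases x with ⟨a, b, _ | _⟩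
  · simp only [mem_RE_false] at hx
    dsimp only
    constructor <;> rw [abs_le] <;> omega
  · simp only [mem_RE_true] at hx
    dsimp only
    constructor <;> rw [abs_le] <;> omega

/-- pivotal edges make the blocks which contain them pivotal -/
theorem bpv {n : ℕ} {x : Edg} {b : Finset Edg} (hx : x ∈ b) {F : Set Edg}
    (h : Pv (Lf n) (Rt n) x F) : BPv (Lf n) (Rt n) b F := by
  refine ⟨BS_Cn_mono ?_ h.1, fun h' => h.2 (BS_Cn_mono ?_ h')⟩
  · intro e he
    rcases he with rfl | he
    · exact Or.inr (by exact_mod_cast hx)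
    · exact Or.inl he
  · rintro e ⟨he1, he2⟩
    refine ⟨he1, ?_⟩
    rintro rfl
    exact he2 (by exact_mod_cast hx)

theorem out (hc : S_CH1) (hq : S_Q1) : S_OUT := by
  classical
  obtain ⟨C1, K, hC1, hK, hch⟩ := hc
  obtain ⟨q1m, q1p, q1b, -⟩ := hq
  refine ⟨144 * (K:ℝ) ^ 2 * C1, ?_, ?_⟩
  · have hK' : (1:ℝ) ≤ (K:ℝ) := by exact_mod_cast hK
    nlinarith [one_le_pow₀ (n := 2) hK']
  intro a n t t' k S x ha hn ht ht' hS hx hG
  have hK' : (1:ℝ) ≤ (K:ℝ) := by exact_mod_cast hK
  have hK2 : (1:ℝ) ≤ (K:ℝ) ^ 2 := one_le_pow₀ hK'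
  have ha1 : 36 * (K:ℝ) ^ 2 ≤ a := by nlinarith
  have ha0 : 0 ≤ a := by nlinarith
  obtain ⟨Ev, par, rk, g1, g2, g3, g4⟩ := hG
  set s : ℕ := max (t + 1) (dm S) with hs
  have hs1 : 1 ≤ s := le_trans (by omega) (le_max_left _ _)
  set r : ℕ := dm S + t + 2 with hr
  set D : ℕ := t' / (2 * K) with hD
  -- nonnegativity of the product
  have hpsi : ∀ (e : Edg) (j : ℕ), 0 < psi n e j := by
    intro e j
    unfold psi
    exact (q1p n (pos e) 1 (cap n j) le_rfl (le_max_left _ _)).1
  have hprod : 0 ≤ a ^ k * (∏ y ∈ S.erase x, psi n y (ds y (par y))) :=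
    mul_nonneg (pow_nonneg ha0 k) (Finset.prod_nonneg (fun y _ => (hpsi y _).le))
  have hcap : ∀ j : ℕ, 1 ≤ j → cap n j = min j n := by
    intro j hj
    unfold cap
    omega
  have hnbm : ∀ {i j : ℕ}, i ≤ j → nb S i ⊆ nb S j := by
    intro i j hij
    unfold nb
    apply Finset.biUnion_mono
    intro e _
    apply blk_sub <;> simp <;> omega
  have hloc : ∀ F F' : Finset Edg, F ∩ (nb S (t' / 2) \ S) = F' ∩ (nb S (t' / 2) \ S) →
      (Ev F ↔ Ev F') := by
    intro F F' hFF
    apply g1
    have hsub : nb S (t / 2) \ S ⊆ nb S (t' / 2) \ S :=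
      Finset.sdiff_subset_sdiff (hnbm (by omega)) le_rfl
    have e1 : F ∩ (nb S (t / 2) \ S) = (F ∩ (nb S (t' / 2) \ S)) ∩ (nb S (t / 2) \ S) := by
      rw [Finset.inter_assoc, Finset.inter_eq_right.mpr hsub]
    have e2 : F' ∩ (nb S (t / 2) \ S) = (F' ∩ (nb S (t' / 2) \ S)) ∩ (nb S (t / 2) \ S) := by
      rw [Finset.inter_assoc, Finset.inter_eq_right.mpr hsub]
    rw [e1, e2, hFF]
  have hKD : K * D * 2 ≤ t' := by
    have := Nat.div_mul_le_self t' (2 * K)
    rw [hD]
    nlinarith
  have hDK : t' < 2 * K * (D + 1) := by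
    rw [hD]
    have := Nat.lt_div_mul_add (a := t') (b := 2 * K) (by omega)
    nlinarith
  rcases le_or_gt r D with hrD | hrD
  · -- first case
    obtain ⟨p1, p2⟩ := pos_le (hS hx)
    have hDn : D ≤ n := by
      have : D ≤ K * D := Nat.le_mul_of_pos_left D (by omega)
      omega
    obtain ⟨Ch, c1, c2, c3⟩ := hch n r D (pos x) (by omega) hrD hDn p1 p2
    have hr1 : 1 ≤ r := by omega
    have hD1 : 1 ≤ D := by omega
    -- regions
    have hSb : S ⊆ blk (pos x) r := by
      intro e he
      apply mem_blk_of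
      have := ds_le_dm he hx
      omega
    have hnbb : nb S (t / 2) ⊆ blk (pos x) r := by
      unfold nb
      rw [Finset.biUnion_subset]
      intro e he
      have := ds_le_dm he hx
      unfold ds at this
      apply blk_sub <;> simp only [pos] <;> omega
    have hbig : blk (pos x) (K * D) ⊆ nb S (t' / 2) := by
      refine subset_trans ?_ (Finset.subset_biUnion_of_mem
        (fun e => blk (pos e) (t' / 2)) hx)
      apply blk_sub <;> simp <;> omega
    have hreg : blk (pos x) (K * D) \ blk (pos x) r ⊆ nb S (t' / 2) \ S := by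
      intro e he
      obtain ⟨he1, he2⟩ := mem_sdiff.mp he
      exact mem_sdiff.mpr ⟨hbig he1, fun h => he2 (hSb h)⟩
    refine ⟨fun F => Ev F ∧ Ch F, par, rk, ?_, ?_, g3, ?_⟩
    · intro F F' hFF
      have e1 := hloc F F' hFF
      have e2 : Ch F ↔ Ch F' := by
        apply c1
        have e1 : F ∩ (blk (pos x) (K * D) \ blk (pos x) r) =
            (F ∩ (nb S (t' / 2) \ S)) ∩ (blk (pos x) (K * D) \ blk (pos x) r) := by
          rw [Finset.inter_assoc, Finset.inter_eq_right.mpr hreg]
        have e2 : F' ∩ (blk (pos x) (K * D) \ blk (pos x) r) =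
            (F' ∩ (nb S (t' / 2) \ S)) ∩ (blk (pos x) (K * D) \ blk (pos x) r) := by
          rw [Finset.inter_assoc, Finset.inter_eq_right.mpr hreg]
        rw [e1, e2, hFF]
      exact and_congr e1 e2
    · intro S' hSS' hS' hfar F hF hQ
      refine ⟨g2 S' hSS' hS' (fun v hv w hw => ?_) F hF hQ, ?_⟩
      · have := hfar v hv w hw
        omega
      · obtain ⟨T, hT, hPv⟩ := hQ x (hSS' hx)
        have hb : x ∈ blk (pos x) r ∩ boxE n := mem_inter.mpr ⟨hSb hx, hS hx⟩
        have k1 := bpv hb hPv
        have k2 : (F \ S') ∪ T ⊆ boxE n :=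
          Finset.union_subset (sdiff_subset.trans hF) (hT.trans hS')
        have k3 := c2 _ k2 k1
        refine (c1 _ _ ?_).mp k3
        have hdis : ∀ e ∈ blk (pos x) (K * D) \ blk (pos x) r, e ∉ S' := by
          intro e he heS
          obtain ⟨he1, he2⟩ := mem_sdiff.mp he
          have h1 : e ∉ S := fun h => he2 (hSb h)
          have h2 := hfar x hx e (mem_sdiff.mpr ⟨heS, h1⟩)
          have h3 := mem_blk_pos he1
          rw [ds_comm] at h3
          omega
        ext e
        simp only [mem_inter, mem_union]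
        constructor
        · rintro ⟨h1 | h1, h2⟩
          · exact ⟨(mem_sdiff.mp h1).1, h2⟩
          · exact absurd (hT h1) (hdis e h2)
        · rintro ⟨h1, h2⟩
          exact ⟨Or.inl (mem_sdiff.mpr ⟨h1, hdis e h2⟩), h2⟩
    · -- probability
      have hind : PQ (1 / 2) (boxE n) (fun F => Ev F ∧ Ch F) =
          PQ (1 / 2) (boxE n) Ev * PQ (1 / 2) (boxE n) Ch := by
        refine Pr_indep (S := (nb S (t / 2) \ S) ∩ boxE n)
          (T := (blk (pos x) (K * D) \ blk (pos x) r) ∩ boxE n) inter_subset_right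
          inter_subset_right ?_ ?_ ?_
        · rw [Finset.disjoint_left]
          intro e he1 he2
          exact (mem_sdiff.mp (mem_inter.mp he2).1).2
            (hnbb (mem_sdiff.mp (mem_inter.mp he1).1).1)
        · intro F hF
          apply g1
          rw [Finset.inter_assoc, Finset.inter_assoc, Finset.inter_comm (boxE n),
            ← Finset.inter_assoc (nb S (t / 2) \ S), Finset.inter_self,
            Finset.inter_comm (nb S (t / 2) \ S), ← Finset.inter_assoc,
            Finset.inter_eq_left.mpr hF]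
        · intro F hF
          apply c1
          rw [Finset.inter_assoc, Finset.inter_assoc, Finset.inter_comm (boxE n),
            ← Finset.inter_assoc (blk (pos x) (K * D) \ blk (pos x) r), Finset.inter_self,
            Finset.inter_comm (blk (pos x) (K * D) \ blk (pos x) r), ← Finset.inter_assoc,
            Finset.inter_eq_left.mpr hF]
      rw [hind]
      have hsr : s ≤ r := by
        rw [hs, hr]; omega
      have hr3 : r ≤ 3 * s := by
        rw [hs, hr]; omega
      have hDt : D ≤ t' := by
        have : D ≤ K * D := Nat.le_mul_of_pos_left D (by omega)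
        omega
      have htD : t' ≤ 4 * K * D := by nlinarith
      have hmax : max t' (dm S) = t' := by
        apply max_eq_left
        omega
      have b1 := q1b n (pos x) s r 3 hs1 hsr (by norm_num) hr3
      have b2 := q1b n (pos x) D t' (4 * K) hD1 hDt (by omega) htD
      have m1 := q1m n (pos x) 1 s r le_rfl hs1 hsr
      have m2 := q1m n (pos x) 1 r D le_rfl hr1 hrD
      have m3 := q1m n (pos x) 1 D t' le_rfl hD1 hDt
      have hcs : psi n x s = q1 n (pos x) 1 s := by
        unfold psi
        rw [hcap s hs1, min_eq_left (by omega)]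
      have hct : psi n x (max t' (dm S)) = q1 n (pos x) 1 t' := by
        unfold psi
        rw [hmax, hcap t' (by omega), min_eq_left ht']
      rw [hct, pow_succ]
      rw [hcs] at g4
      have z1 := (q1p n (pos x) 1 s le_rfl hs1).1
      have z2 := (q1p n (pos x) r D hr1 hrD).1
      have z3 := (q1p n (pos x) 1 D le_rfl hD1).1
      have z4 := (q1p n (pos x) 1 t' le_rfl (by omega)).1
      have z5 := (q1p n (pos x) 1 r le_rfl hr1).1
      -- bounds
      have u1 : q1 n (pos x) 1 s ≤ 9 * q1 n (pos x) 1 r := by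
        rw [← m1]
        push_cast at b1
        nlinarith
      have u2 : q1 n (pos x) 1 D ≤ 16 * (K:ℝ) ^ 2 * q1 n (pos x) 1 t' := by
        rw [← m3]
        push_cast at b2
        nlinarith
      have u3 : q1 n (pos x) 1 s * (C1 * q1 n (pos x) r D) ≤
          144 * (K:ℝ) ^ 2 * C1 * q1 n (pos x) 1 t' := by
        calc q1 n (pos x) 1 s * (C1 * q1 n (pos x) r D)
            ≤ (9 * q1 n (pos x) 1 r) * (C1 * q1 n (pos x) r D) :=
              mul_le_mul_of_nonneg_right u1 (by positivity)
          _ = 9 * C1 * q1 n (pos x) 1 D := by rw [← m2]; ring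
          _ ≤ 9 * C1 * (16 * (K:ℝ) ^ 2 * q1 n (pos x) 1 t') :=
              mul_le_mul_of_nonneg_left u2 (by positivity)
          _ = 144 * (K:ℝ) ^ 2 * C1 * q1 n (pos x) 1 t' := by ring
      calc PQ (1 / 2) (boxE n) Ev * PQ (1 / 2) (boxE n) Ch
          ≤ (a ^ k * (∏ y ∈ S.erase x, psi n y (ds y (par y))) * q1 n (pos x) 1 s) *
            (C1 * q1 n (pos x) r D) :=
            mul_le_mul g4 c3 (Pr_nonneg okh _ _) (mul_nonneg hprod z1.le)
        _ = a ^ k * (∏ y ∈ S.erase x, psi n y (ds y (par y))) *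
            (q1 n (pos x) 1 s * (C1 * q1 n (pos x) r D)) := by ring
        _ ≤ a ^ k * (∏ y ∈ S.erase x, psi n y (ds y (par y))) *
            (144 * (K:ℝ) ^ 2 * C1 * q1 n (pos x) 1 t') := mul_le_mul_of_nonneg_left u3 hprod
        _ ≤ a ^ k * (∏ y ∈ S.erase x, psi n y (ds y (par y))) *
            (a * q1 n (pos x) 1 t') := by
            apply mul_le_mul_of_nonneg_left _ hprod
            exact mul_le_mul_of_nonneg_right ha z4.le
        _ = a ^ k * a * (∏ y ∈ S.erase x, psi n y (ds y (par y))) * q1 n (pos x) 1 t' := by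
            ring
  · -- second case
    refine ⟨Ev, par, rk, hloc, ?_, g3, ?_⟩
    · intro S' hSS' hS' hfar F hF hQ
      refine g2 S' hSS' hS' (fun v hv w hw => ?_) F hF hQ
      have := hfar v hv w hw
      omega
    · set s' : ℕ := max t' (dm S) with hs'
      have hss : s ≤ s' := by rw [hs, hs']; omega
      have hs'1 : 1 ≤ s' := le_trans hs1 hss
      have hr3 : r ≤ 3 * s := by
        rw [hs, hr]; omega
      have ht6 : t' ≤ 6 * K * s := by
        have h1 : D + 1 ≤ r := hrD
        have h2 : 2 * K * (D + 1) ≤ 2 * K * (3 * s) := Nat.mul_le_mul_left _ (h1.trans hr3)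
        nlinarith
      have hd6 : dm S ≤ 6 * K * s := by
        have : dm S ≤ s := le_max_right _ _
        nlinarith
      have hs6 : s' ≤ 6 * K * s := by rw [hs']; exact max_le ht6 hd6
      have c1 : cap n s = min s n := hcap s hs1
      have c2 : cap n s' = min s' n := hcap s' hs'1
      have l0 : 1 ≤ min s n := by omega
      have l1 : min s n ≤ min s' n := by omega
      have l2 : min s' n ≤ 6 * K * min s n := by
        rcases le_total s n with h | h
        · rw [min_eq_left h]
          exact (min_le_left _ _).trans hs6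
        · rw [min_eq_right h]
          refine (min_le_right _ _).trans ?_
          nlinarith
      have b1 := q1b n (pos x) (min s n) (min s' n) (6 * K) l0 l1 (by omega) l2
      have m1 := q1m n (pos x) 1 (min s n) (min s' n) le_rfl l0 l1
      have hcs : psi n x s = q1 n (pos x) 1 (min s n) := by
        unfold psi
        rw [c1]
      have hct : psi n x s' = q1 n (pos x) 1 (min s' n) := by
        unfold psi
        rw [c2]
      rw [hct, pow_succ]
      rw [hcs] at g4
      have z1 := (q1p n (pos x) 1 (min s n) le_rfl l0).1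
      have z4 := (q1p n (pos x) 1 (min s' n) le_rfl (l0.trans l1)).1
      have u2 : q1 n (pos x) 1 (min s n) ≤ a * q1 n (pos x) 1 (min s' n) := by
        have u3 : q1 n (pos x) 1 (min s n) ≤ 36 * (K:ℝ) ^ 2 * q1 n (pos x) 1 (min s' n) := by
          rw [← m1]
          push_cast at b1
          nlinarith
        exact u3.trans (mul_le_mul_of_nonneg_right ha1 z4.le)
      calc PQ (1 / 2) (boxE n) Ev
          ≤ a ^ k * (∏ y ∈ S.erase x, psi n y (ds y (par y))) * q1 n (pos x) 1 (min s n) := g4
        _ ≤ a ^ k * (∏ y ∈ S.erase x, psi n y (ds y (par y))) *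
            (a * q1 n (pos x) 1 (min s' n)) := mul_le_mul_of_nonneg_left u2 hprod
        _ = a ^ k * a * (∏ y ∈ S.erase x, psi n y (ds y (par y))) *
            q1 n (pos x) 1 (min s' n) := by ring

end Pool.Agent.Y239.NE.Out
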